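import Pool.Agent.helper88.PF.Spec

/-!
# MP_0b485e_lc, row AAP: computable approximations
-/

namespace PF

noncomputable section

open Classical

theorem AAP_fin {X : Type} [Primcodable X] {ι : Type} (P : ι → X → Prop)
    (h : ∀ i, ComputablePred (P i)) (s : Finset ι) :
    ComputablePred (fun x => ∀ i ∈ s, P i x) := by
  induction s using Finset.induction_on with
  | empty =>
    refine (cp_const True).of_eq ?_
    intro x
    simp
  | insert i s _ ih =>
    refine (cp_and (h i) ih).of_eq ?_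
    intro x
    simp

theorem AAP_set {X : Type} [Primcodable X] {ι : Type} [Finite ι] (T : ι → X → Bool)
    (hT : ∀ i, Computable (T i)) : Cmp (fun x => {i | T i x = true}) := by
  intro V
  have hι : Fintype ι := Fintype.ofFinite ι
  have h1 : ∀ i, ComputablePred (fun x => T i x = true ↔ i ∈ V) := by
    intro i
    have h2 : ComputablePred (fun x => T i x = true) := (R3_iff _).2 ⟨T i, hT i, fun _ => Iff.rfl⟩
    by_cases hi : i ∈ V
    · refine h2.of_eq ?_
      intro x
      simp [hi]
    · refine (cp_not h2).of_eq ?_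
      intro x
      simp [hi]
  refine (AAP_fin _ h1 Finset.univ).of_eq ?_
  intro x
  constructor
  · intro h
    ext i
    exact h i (Finset.mem_univ i)
  · intro h i _
    rw [← h]
    exact Iff.rfl

/-- the supremum of a subset of a finite lattice -/
def AAP_g {α : Po} (V : Set α) : α :=
  (Set.toFinite V).toFinset.sup id

theorem AAP_le {α : Po} {V : Set α} {v : α} (h : v ∈ V) : v ≤ AAP_g V :=
  Finset.le_sup (f := id) ((Set.Finite.mem_toFinset _).2 h)

theorem AAP_g_le {α : Po} {V : Set α} {w : α} (h : ∀ v ∈ V, v ≤ w) : AAP_g V ≤ w :=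
  Finset.sup_le (fun v hv => h v ((Set.Finite.mem_toFinset _).1 hv))

theorem AAP (hACP : ACP_stmt) : AAP_stmt := by
  intro α a ha
  have h1 : ∀ v : α, ∃ T : ℕ × ℕ → Bool, Computable T ∧
      (∀ p n m, n ≤ m → T (p, n) = true → T (p, m) = true) ∧
      ∀ p, v ≤ a p ↔ ∃ n, T (p, n) = true := fun v => (re_iff _).1 (ha v)
  choose T hT1 hT2 hT3 using h1
  refine ⟨fun x => AAP_g {v : α | T v x = true}, ?_, ?_, ?_, ?_⟩
  · exact hACP.1 (ℕ × ℕ) (Set α) α AAP_g _ (AAP_set T hT1)
  · intro p s
    refine AAP_g_le ?_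
    intro v hv
    exact AAP_le (hT2 v p s (s + 1) (Nat.le_succ s) hv)
  · intro p s
    refine AAP_g_le ?_
    intro v hv
    exact (hT3 v p).2 ⟨s, hv⟩
  · intro p
    obtain ⟨s₀, hs₀⟩ := (hT3 (a p) p).1 le_rfl
    refine ⟨s₀, fun s hs => le_antisymm ?_ ?_⟩
    · refine AAP_g_le ?_
      intro v hv
      exact (hT3 v p).2 ⟨s, hv⟩
    · exact AAP_le (hT2 (a p) p s₀ s hs hs₀)

end

end PF
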