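import Pool.Agent.helper88.PF.Spec

/-!
# MP_0b485e_lc, row BPI: counting copies
-/

namespace PF

noncomputable section

open Classical

/-- the rank of `(t, E)` -/
def BPI_rk {β₀ α β : Po} (x : β₀ × Set (α × β)) : ℕ := (Set.Iic x.1).ncard + x.2.ncard

/-- the bound of the rank -/
def BPI_N (β₀ α β : Po) : ℕ := Nat.card β₀ + Nat.card (α × β)

/-- the base -/
def BPI_B (β : Po) : ℕ := 2 * Nat.card β

/-- the multiplicity -/
def BPI_m {β₀ α β : Po} (x : β₀ × Set (α × β)) : ℕ := BPI_B β ^ (BPI_N β₀ α β - BPI_rk x)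

/-- the number of the copies with `u_g = a`, `b ≤ v_g` -/
def BPI_cnt {M : ℕ} {α β : Po} (u : Fin M → α) (v : Fin M → β) (a : α) (b : β) : ℕ :=
  (Finset.univ.filter (fun g => u g = a ∧ b ≤ v g)).card

theorem BPI_cardpos (β : Po) : 0 < Nat.card β := by
  have h : Nonempty β := ⟨⊥⟩
  exact Nat.card_pos

theorem BPI_B_ge (β : Po) : 2 ≤ BPI_B β := by
  unfold BPI_B
  have := BPI_cardpos β
  omega

theorem BPI_rk_le {β₀ α β : Po} (x : β₀ × Set (α × β)) : BPI_rk x ≤ BPI_N β₀ α β := by
  unfold BPI_rk BPI_N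
  have h1 : (Set.Iic x.1).ncard ≤ Nat.card β₀ := by
    rw [← Set.ncard_univ]
    exact Set.ncard_le_ncard (Set.subset_univ _) (Set.toFinite _)
  have h2 : x.2.ncard ≤ Nat.card (α × β) := by
    rw [← Set.ncard_univ]
    exact Set.ncard_le_ncard (Set.subset_univ _) (Set.toFinite _)
  omega

theorem BPI_rk_mono {β₀ α β : Po} {x y : β₀ × Set (α × β)} (h : x ≤ y) : BPI_rk x ≤ BPI_rk y := by
  unfold BPI_rk
  have h1 : (Set.Iic x.1).ncard ≤ (Set.Iic y.1).ncard :=
    Set.ncard_le_ncard (Set.Iic_subset_Iic.2 h.1) (Set.toFinite _)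
  have h2 : x.2.ncard ≤ y.2.ncard := Set.ncard_le_ncard h.2 (Set.toFinite _)
  omega

theorem BPI_m_anti {β₀ α β : Po} {x y : β₀ × Set (α × β)} (h : x ≤ y) : BPI_m y ≤ BPI_m x := by
  unfold BPI_m
  have h1 := BPI_rk_mono h
  have h2 := BPI_B_ge β
  exact Nat.pow_le_pow_right (by omega) (by omega)

theorem BPI_m_pos {β₀ α β : Po} (x : β₀ × Set (α × β)) : 0 < BPI_m x := by
  unfold BPI_m
  have h2 := BPI_B_ge β
  exact Nat.pow_pos (by omega)

theorem BPI_m_insert {β₀ α β : Po} (t : β₀) (E : Set (α × β)) (c : α × β) (hc : c ∉ E) :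
    BPI_m (β₀ := β₀) (t, E) = BPI_B β * BPI_m (β₀ := β₀) (t, insert c E) := by
  unfold BPI_m
  have h1 : BPI_rk (β₀ := β₀) (t, insert c E) = BPI_rk (β₀ := β₀) (t, E) + 1 := by
    unfold BPI_rk
    show (Set.Iic t).ncard + (insert c E).ncard = (Set.Iic t).ncard + E.ncard + 1
    rw [Set.ncard_insert_of_notMem hc (Set.toFinite _)]
    omega
  have h2 := BPI_rk_le (β₀ := β₀) (t, insert c E)
  rw [h1] at h2 ⊢
  rw [← pow_succ']
  congr 1
  omega

/-- the set `P D` -/
def BPI_P (α₁ β₀ α β : Po) (M : ℕ) (D : Set ((α₁ × (Fin M → α)) × (β₀ × (Fin M → β)))) :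
    Set (α₁ × (β₀ × Set (α × β))) :=
  {x | ∃ (u : Fin M → α) (t' : β₀) (v : Fin M → β), ((x.1, u), (t', v)) ∈ D ∧ x.2.1 ≤ t' ∧
    ∀ a b, ((a, b) ∈ x.2.2 ∨ (a, b) = ((⊥, ⊥) : α × β)) → BPI_m x.2 ≤ BPI_cnt u v a b}

theorem BPI_cnt_mono {M : ℕ} {α β : Po} (u : Fin M → α) {v w : Fin M → β} (h : v ≤ w) (a : α)
    (b : β) : BPI_cnt u v a b ≤ BPI_cnt u w a b := by
  unfold BPI_cnt
  refine Finset.card_le_card ?_
  intro g hg
  rw [Finset.mem_filter] at hg ⊢
  exact ⟨hg.1, hg.2.1, hg.2.2.trans (h g)⟩

theorem BPI : BPI_stmt := by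
  intro α₁ β₀ α β
  refine ⟨BPI_B β ^ BPI_N β₀ α β, BPI_P α₁ β₀ α β (BPI_B β ^ BPI_N β₀ α β), ?_, ?_⟩
  · intro D D' hDD' x hx
    obtain ⟨u, t', v, h1, h2, h3⟩ := hx
    exact ⟨u, t', v, hDD' h1, h2, h3⟩
  generalize hM : BPI_B β ^ BPI_N β₀ α β = M
  intro κ Θ D hD
  obtain ⟨hD1, hD2, hD3⟩ := hD
  refine ⟨?_, ?_, ?_⟩
  · refine ⟨⊥, ⊥, ⊥, hD1, le_rfl, ?_⟩
    intro a b hab
    have hab' : (a, b) = ((⊥, ⊥) : α × β) := by
      rcases hab with hab | hab
      · exact absurd hab (Set.notMem_empty _)
      · exact hab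
    have ha : a = ⊥ := congrArg Prod.fst hab'
    have hb : b = ⊥ := congrArg Prod.snd hab'
    subst ha
    subst hb
    have h1 : BPI_cnt (⊥ : Fin M → α) (⊥ : Fin M → β) ⊥ ⊥ = M := by
      unfold BPI_cnt
      rw [Finset.filter_true_of_mem]
      · simp
      · intro g _
        exact ⟨rfl, bot_le⟩
    rw [h1, ← hM]
    unfold BPI_m
    have h2 := BPI_B_ge β
    exact Nat.pow_le_pow_right (by omega) (Nat.sub_le _ _)
  · rintro s s' ⟨t, E⟩ hss' ⟨u, t', v, h1, h2, h3⟩
    exact ⟨u, t', v, hD2 (s, u) (s', u) (t', v) ⟨hss', le_rfl⟩ h1, h2, h3⟩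
  · rintro s ⟨t, E⟩ hs
    by_cases hκ : κ s
    swap
    · exact ⟨(t, E), le_rfl, hs, fun h => absurd h hκ⟩
    -- a maximal element
    obtain ⟨⟨t₁, E₁⟩, hle, hmax⟩ := (Set.toFinite {x : β₀ × Set (α × β) |
      (s, x) ∈ BPI_P α₁ β₀ α β M D}).exists_le_maximal (a := (t, E)) hs
    have hmem : (s, (t₁, E₁)) ∈ BPI_P α₁ β₀ α β M D := hmax.1
    have hmx : ∀ x : β₀ × Set (α × β), (s, x) ∈ BPI_P α₁ β₀ α β M D → (t₁, E₁) ≤ x →
        x ≤ (t₁, E₁) := fun x h1 h2 => hmax.2 h1 h2
    obtain ⟨u, t', v, h1, h2, h3⟩ := hmem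
    have h2 : t₁ ≤ t' := h2
    obtain ⟨⟨t'', w⟩, h4, h5, h6⟩ := hD3 (s, u) (t', v) h1
    have h4a : t' ≤ t'' := h4.1
    have h4b : v ≤ w := h4.2
    have h6 : ∀ g, Θ s t'' (u g) (w g) := h6 hκ
    have h3 : ∀ a b, ((a, b) ∈ E₁ ∨ (a, b) = ((⊥, ⊥) : α × β)) →
        BPI_m (β₀ := β₀) (t₁, E₁) ≤ BPI_cnt u w a b :=
      fun a b hab => (h3 a b hab).trans (BPI_cnt_mono u h4b a b)
    have ht : t'' = t₁ := by
      have h7 : (t'', E₁) ≤ (t₁, E₁) := by
        refine hmx (t'', E₁) ⟨u, t'', w, h5, le_rfl, ?_⟩ ⟨h2.trans h4a, le_rfl⟩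
        intro a b hab
        refine le_trans (BPI_m_anti ?_) (h3 a b hab)
        exact ⟨h2.trans h4a, le_rfl⟩
      exact le_antisymm h7.1 (h2.trans h4a)
    subst ht
    refine ⟨(t'', E₁), hle, ⟨u, t'', w, h5, le_rfl, h3⟩, fun _ => ⟨?_, ?_, ?_⟩⟩
    · -- (a)
      have h7 : (t'', insert ((⊥, ⊥) : α × β) E₁) ≤ (t'', E₁) := by
        refine hmx _ ⟨u, t'', w, h5, le_rfl, ?_⟩ ⟨le_rfl, Set.subset_insert _ _⟩
        intro a b hab
        refine le_trans (BPI_m_anti (x := (t'', E₁)) (y := (t'', insert ((⊥, ⊥) : α × β) E₁))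
          ⟨le_rfl, Set.subset_insert _ _⟩) (h3 a b ?_)
        rcases hab with hab | hab
        · rcases Set.mem_insert_iff.1 hab with hab | hab
          · exact Or.inr hab
          · exact Or.inl hab
        · exact Or.inr hab
      exact h7.2 (Set.mem_insert _ _)
    · -- (b)
      intro a a' b haa' hab
      by_contra hnot
      have hne : a ≠ a' := by
        rintro rfl
        exact hnot hab
      have hm := BPI_m_insert (β₀ := β₀) t'' E₁ (a', b) hnot
      set m' := BPI_m (β₀ := β₀) (t'', insert (a', b) E₁) with hm'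
      have hB := BPI_B_ge β
      have hm2 : 2 * m' ≤ BPI_m (β₀ := β₀) (t'', E₁) := by
        rw [hm]
        exact Nat.mul_le_mul_right _ hB
      have hS := h3 a b (Or.inl hab)
      unfold BPI_cnt at hS
      obtain ⟨S', hS'1, hS'2⟩ := Finset.exists_subset_card_eq
        (s := Finset.univ.filter (fun g => u g = a ∧ b ≤ w g)) (n := m') (by omega)
      have h7 : (t'', insert (a', b) E₁) ≤ (t'', E₁) := by
        refine hmx _ ⟨fun g => if g ∈ S' then a' else u g, t'', w, ?_, le_rfl, ?_⟩
          ⟨le_rfl, Set.subset_insert _ _⟩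
        · refine hD2 (s, u) _ (t'', w) ⟨le_rfl, ?_⟩ h5
          intro g
          show u g ≤ if g ∈ S' then a' else u g
          split_ifs with hg
          · have := hS'1 hg
            rw [Finset.mem_filter] at this
            rw [this.2.1]
            exact haa'
          · exact le_rfl
        · intro c d hcd
          show m' ≤ _
          have hcd' : (c, d) = (a', b) ∨ ((c, d) ∈ E₁ ∨ (c, d) = ((⊥, ⊥) : α × β)) := by
            rcases hcd with hcd | hcd
            · rcases Set.mem_insert_iff.1 hcd with hcd | hcd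
              · exact Or.inl hcd
              · exact Or.inr (Or.inl hcd)
            · exact Or.inr (Or.inr hcd)
          rcases hcd' with hcd' | hcd'
          · have hc : c = a' := congrArg Prod.fst hcd'
            have hd : d = b := congrArg Prod.snd hcd'
            subst hc
            subst hd
            rw [← hS'2]
            unfold BPI_cnt
            refine Finset.card_le_card ?_
            intro g hg
            have := hS'1 hg
            rw [Finset.mem_filter] at this ⊢
            refine ⟨Finset.mem_univ _, ?_, this.2.2⟩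
            show (if g ∈ S' then c else u g) = c
            rw [if_pos hg]
          · have h8 := h3 c d hcd'
            have h9 : BPI_cnt u w c d - m' ≤
                BPI_cnt (fun g => if g ∈ S' then a' else u g) w c d := by
              unfold BPI_cnt
              rw [← hS'2]
              refine le_trans (Finset.le_card_sdiff _ _) ?_
              refine Finset.card_le_card ?_
              intro g hg
              rw [Finset.mem_sdiff, Finset.mem_filter] at hg
              rw [Finset.mem_filter]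
              refine ⟨Finset.mem_univ _, ?_, hg.1.2.2⟩
              show (if g ∈ S' then a' else u g) = c
              rw [if_neg hg.2]
              exact hg.1.2.1
            omega
      exact hnot (h7.2 (Set.mem_insert _ _))
    · -- (c)
      intro a b hab
      have hS := h3 a b (Or.inl hab)
      have hmpos := BPI_m_pos (β₀ := β₀) (t'', E₁)
      have hft : Fintype β := Fintype.ofFinite β
      have hne : Nonempty β := ⟨⊥⟩
      set S := Finset.univ.filter (fun g => u g = a ∧ b ≤ w g) with hSdef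
      have hS' : BPI_m (β₀ := β₀) (t'', E₁) ≤ S.card := hS
      obtain ⟨b', hb'⟩ := Finite.exists_max (fun b' : β => (S.filter (fun g => w g = b')).card)
      set q := (S.filter (fun g => w g = b')).card with hq
      have hsum : S.card ≤ Nat.card β * q := by
        have h10 := Finset.card_eq_sum_card_fiberwise (s := S) (t := (Finset.univ : Finset β))
          (f := w) (fun _ _ => Finset.mem_univ _)
        rw [h10]
        calc ∑ b'' : β, (S.filter (fun g => w g = b'')).card ≤ ∑ _b'' : β, q :=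
              Finset.sum_le_sum (fun b'' _ => hb' b'')
          _ = Nat.card β * q := by
              rw [Finset.sum_const, Finset.card_univ, Nat.card_eq_fintype_card, smul_eq_mul]
      have hqpos : 0 < q := by
        by_contra h
        have h0 : q = 0 := by omega
        rw [h0] at hsum
        omega
      obtain ⟨g, hg⟩ := Finset.card_pos.1 hqpos
      rw [Finset.mem_filter, hSdef, Finset.mem_filter] at hg
      obtain ⟨⟨_, hg1, hg2⟩, hg3⟩ := hg
      refine ⟨b', ?_, ?_, ?_⟩
      · rw [← hg3]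
        exact hg2
      · by_contra hnot
        have hm := BPI_m_insert (β₀ := β₀) t'' E₁ (a, b') hnot
        have hBdef : BPI_B β = 2 * Nat.card β := rfl
        have hβ := BPI_cardpos β
        set m' := BPI_m (β₀ := β₀) (t'', insert (a, b') E₁) with hm'
        have hqm : m' ≤ q := by
          have h11 : Nat.card β * (2 * m') ≤ Nat.card β * q := by
            calc Nat.card β * (2 * m') = BPI_B β * m' := by rw [hBdef]; ring
              _ = BPI_m (β₀ := β₀) (t'', E₁) := hm.symm
              _ ≤ S.card := hS'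
              _ ≤ Nat.card β * q := hsum
          have h12 := Nat.le_of_mul_le_mul_left h11 hβ
          omega
        have h7 : (t'', insert (a, b') E₁) ≤ (t'', E₁) := by
          refine hmx _ ⟨u, t'', w, h5, le_rfl, ?_⟩ ⟨le_rfl, Set.subset_insert _ _⟩
          intro c d hcd
          have hcd' : (c, d) = (a, b') ∨ ((c, d) ∈ E₁ ∨ (c, d) = ((⊥, ⊥) : α × β)) := by
            rcases hcd with hcd | hcd
            · rcases Set.mem_insert_iff.1 hcd with hcd | hcd
              · exact Or.inl hcd
              · exact Or.inr (Or.inl hcd)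
            · exact Or.inr (Or.inr hcd)
          rcases hcd' with hcd' | hcd'
          · have hc : c = a := congrArg Prod.fst hcd'
            have hd : d = b' := congrArg Prod.snd hcd'
            subst hc
            subst hd
            refine le_trans hqm ?_
            unfold BPI_cnt
            refine Finset.card_le_card ?_
            intro g' hg'
            rw [Finset.mem_filter, hSdef, Finset.mem_filter] at hg'
            rw [Finset.mem_filter]
            exact ⟨Finset.mem_univ _, hg'.1.2.1, le_of_eq hg'.2.symm⟩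
          · exact le_trans (BPI_m_anti (x := (t'', E₁)) (y := (t'', insert (a, b') E₁))
              ⟨le_rfl, Set.subset_insert _ _⟩) (h3 c d hcd')
        exact hnot (h7.2 (Set.mem_insert _ _))
      · have := h6 g
        rw [hg1, hg3] at this
        exact this

end

end PF
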